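import Mathlib.RingTheory.MvPolynomial.Homogeneous
import Mathlib.Analysis.Complex.Polynomial.Basic
import Mathlib.LinearAlgebra.Vandermonde
import Mathlib.Algebra.Module.Submodule.Union
import Mathlib.Data.Sym.Card
import Mathlib.Combinatorics.Pigeonhole
import Mathlib.Tactic

set_option autoImplicit false

open MvPolynomial

namespace Pool.Agent.Results.MP_02c618_ag.NoLargeArrangements

/-- The Waring rank of a form `F` of degree `d`: the least `w` such that `F` is a sum of
`w` many `d`-th powers of linear forms (homogeneous polynomials of degree one, zero included). -/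
noncomputable def waringRank {σ : Type} (d : ℕ) (F : MvPolynomial σ ℂ) : ℕ :=
  sInf {w : ℕ | ∃ L : Fin w → MvPolynomial σ ℂ,
    (∀ i, (L i).IsHomogeneous 1) ∧ F = ∑ i, L i ^ d}

/-- `ℓ₁, …, ℓ_d` is a generic arrangement of `d ≥ n + 1` hyperplanes in `ℙⁿ`: the `ℓᵢ` are linear
forms in `n + 1` variables any `n + 1` of which are linearly independent. -/
def IsGenericArrangement (n d : ℕ) (ℓ : Fin d → MvPolynomial (Fin (n + 1)) ℂ) : Prop :=
  n + 1 ≤ d ∧ (∀ i, (ℓ i).IsHomogeneous 1) ∧
    ∀ s : Finset (Fin d), s.card = n + 1 → LinearIndependent ℂ (fun i : s => ℓ i)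

/-- The statement `P(n)`: there are generic arrangements in `ℙⁿ` of arbitrarily large size whose
Waring rank is exactly `binom(2n, n)`. -/
def P (n : ℕ) : Prop :=
  ∀ D : ℕ, ∃ d : ℕ, D ≤ d ∧ ∃ ℓ : Fin d → MvPolynomial (Fin (n + 1)) ℂ,
    IsGenericArrangement n d ℓ ∧ waringRank d (∏ i, ℓ i) = (2 * n).choose n

section core

open Module

/-- Powers of pairwise different translates of `t` are linearly independent. -/
lemma coeff_zero_of_pow_sum {ι : Type*} (s : Finset ι) (c α : ι → ℂ) (d : ℕ)
    (hs : s.card ≤ d + 1) (hα : Set.InjOn α s)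
    (h : ∀ t : ℂ, ∑ j ∈ s, c j * (t + α j) ^ d = 0) : ∀ j ∈ s, c j = 0 := by
  classical
  -- coefficients
  have hpoly : (∑ j ∈ s, Polynomial.C (c j) * (Polynomial.X + Polynomial.C (α j)) ^ d) = 0 := by
    apply Polynomial.funext
    intro t
    rw [Polynomial.eval_finsetSum]
    simpa using h t
  have hcoef : ∀ i ≤ d, ∑ j ∈ s, c j * α j ^ i = 0 := by
    intro i hi
    have h1 := congrArg (fun p => Polynomial.coeff p (d - i)) hpoly
    simp only [Polynomial.finsetSum_coeff, Polynomial.coeff_C_mul, Polynomial.coeff_X_add_C_pow,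
      Polynomial.coeff_zero] at h1
    have h2 : d - (d - i) = i := by omega
    rw [h2] at h1
    have h3 : ((d.choose (d - i) : ℕ) : ℂ) ≠ 0 := by
      exact_mod_cast (Nat.choose_pos (by omega)).ne'
    have h4 : ((d.choose (d - i) : ℕ) : ℂ) * ∑ j ∈ s, c j * α j ^ i = 0 := by
      rw [Finset.mul_sum, ← h1]
      apply Finset.sum_congr rfl
      intro j _
      ring
    exact (mul_eq_zero.mp h4).resolve_left h3
  -- Vandermonde
  let e := s.equivFin
  have hinj : Function.Injective (fun k : Fin s.card => α (e.symm k)) := by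
    intro a b hab
    have := hα (e.symm a).2 (e.symm b).2 hab
    exact e.symm.injective (Subtype.ext this)
  have hv := Matrix.eq_zero_of_forall_pow_sum_mul_pow_eq_zero
    (f := fun k : Fin s.card => α (e.symm k)) (v := fun k : Fin s.card => c (e.symm k)) hinj (by
      intro i
      have := hcoef i (by omega)
      rw [← Finset.sum_coe_sort s (fun j => c j * α j ^ (i : ℕ))] at this
      rw [← this]
      exact Equiv.sum_comp e.symm (fun j : s => c j * α j ^ (i : ℕ)))
  intro j hj
  have := congrFun hv (e ⟨j, hj⟩)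
  simpa using this

variable {V : Type*} [AddCommGroup V] [Module ℂ V]

lemma exists_smul_of_ker_le (L K : Dual ℂ V) (h : ∀ x, L x = 0 → K x = 0) :
    ∃ c : ℂ, K = c • L := by
  by_cases hL : L = 0
  · refine ⟨0, ?_⟩
    ext x
    rw [h x (by rw [hL]; rfl), zero_smul]
    rfl
  · obtain ⟨v, hv⟩ : ∃ v, L v ≠ 0 := by
      by_contra hcon
      push Not at hcon
      exact hL (by ext x; rw [hcon x]; rfl)
    refine ⟨K v / L v, ?_⟩
    ext x
    have h1 := h (x - (L x / L v) • v) (by
      rw [map_sub, map_smul, smul_eq_mul]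
      field_simp
      ring)
    rw [map_sub, map_smul, smul_eq_mul] at h1
    rw [LinearMap.smul_apply, smul_eq_mul]
    field_simp
    field_simp at h1
    linear_combination h1

/-- The key step.  If a product of `d` linear functionals containing `L` is a combination of `d`-th
powers of pairwise non-proportional functionals `m j`, then `L` lies in the span of two of the
`m j`. -/
lemma key_step {ι : Type*} (s : Finset ι) (c : ι → ℂ) (m : ι → Dual ℂ V) (L : Dual ℂ V) (d : ℕ)
    (hcard : s.card ≤ d + 1) (hne : ∃ j ∈ s, c j ≠ 0)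
    (hprop : ∀ j ∈ s, ∀ k ∈ s, j ≠ k → ∀ a b : ℂ, a • m j = b • m k → a = 0 ∧ b = 0)
    (hL : ∀ x, L x = 0 → ∑ j ∈ s, c j * (m j x) ^ d = 0)
    (hnot : ∀ j ∈ s, ∀ a : ℂ, m j ≠ a • L) :
    ∃ j ∈ s, ∃ k ∈ s, j ≠ k ∧ ∃ a b : ℂ, L = a • m j + b • m k := by
  classical
  by_contra hcon
  push Not at hcon
  -- choose `y`
  obtain ⟨y, hyL, hy⟩ := Dual.exists_forall_mem_ne_zero_of_forall_exists (LinearMap.ker L)
    (fun j : s => m j) (by
      rintro ⟨j, hj⟩
      by_contra h
      push Not at h
      obtain ⟨a, ha⟩ := exists_smul_of_ker_le L (m j) (fun x hx => h x hx)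
      exact hnot j hj a ha)
  have hyL' : L y = 0 := hyL
  -- choose `x`
  obtain ⟨x, hxL, hx⟩ := Dual.exists_forall_mem_ne_zero_of_forall_exists (LinearMap.ker L)
    (fun p : s.offDiag => (m p.1.2 y) • m p.1.1 - (m p.1.1 y) • m p.1.2) (by
      rintro ⟨⟨j, k⟩, hjk⟩
      rw [Finset.mem_offDiag] at hjk
      obtain ⟨hj, hk, hne'⟩ := hjk
      dsimp only at hj hk hne'
      by_contra h
      push Not at h
      obtain ⟨a, ha⟩ := exists_smul_of_ker_le L _ (fun x hx => h x hx)
      dsimp only at ha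
      have hj0 : m j y ≠ 0 := hy ⟨j, hj⟩
      have hk0 : m k y ≠ 0 := hy ⟨k, hk⟩
      by_cases ha0 : a = 0
      · rw [ha0, zero_smul, sub_eq_zero] at ha
        exact hk0 (hprop j hj k hk hne' _ _ ha).1
      · refine hcon j hj k hk hne' (a⁻¹ * m k y) (-(a⁻¹ * m j y)) ?_
        have h2 : L = a⁻¹ • (m k y • m j - m j y • m k) := by
          rw [ha, smul_smul, inv_mul_cancel₀ ha0, one_smul]
        rw [h2]
        module)
  have hxL' : L x = 0 := hxL
  -- the polynomial identity
  have hpoly : ∀ t : ℂ, ∑ j ∈ s, (c j * (m j y) ^ d) * (t + m j x / m j y) ^ d = 0 := by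
    intro t
    have h1 := hL (x + t • y) (by rw [map_add, map_smul, hxL', hyL']; simp)
    rw [← h1]
    apply Finset.sum_congr rfl
    intro j hj
    have hj0 : m j y ≠ 0 := hy ⟨j, hj⟩
    rw [map_add, map_smul, smul_eq_mul, mul_assoc, ← mul_pow]
    congr 2
    field_simp
    ring
  have hinj : Set.InjOn (fun j => m j x / m j y) s := by
    intro j hj k hk hjk
    by_contra hne'
    have hj0 : m j y ≠ 0 := hy ⟨j, hj⟩
    have hk0 : m k y ≠ 0 := hy ⟨k, hk⟩
    have h1 := hx ⟨(j, k), Finset.mem_offDiag.mpr ⟨hj, hk, hne'⟩⟩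
    apply h1
    dsimp only at hjk
    rw [div_eq_div_iff hj0 hk0] at hjk
    simp only [LinearMap.sub_apply, LinearMap.smul_apply, smul_eq_mul]
    linear_combination hjk
  have hzero := coeff_zero_of_pow_sum s _ _ d hcard hinj hpoly
  obtain ⟨j, hj, hcj⟩ := hne
  have := hzero j hj
  have hj0 : m j y ≠ 0 := hy ⟨j, hj⟩
  exact (mul_ne_zero hcj (pow_ne_zero _ hj0)) this

/-- Core bound for linear functionals: if a product of `d` functionals, any three of which are
linearly independent, is a combination of `d`-th powers of functionals `m j`, `j ∈ s`, then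
`d ≤ #s (#s - 1)`. -/
lemma core_bound {ι : Type*} (d : ℕ) (hd : 3 ≤ d) (L : Fin d → Dual ℂ V)
    (hL : ∀ i j k : Fin d, i ≠ j → i ≠ k → j ≠ k → LinearIndependent ℂ ![L i, L j, L k])
    (m : ι → Dual ℂ V) :
    ∀ (s : Finset ι) (c : ι → ℂ), (∀ x, ∏ i, L i x = ∑ j ∈ s, c j * (m j x) ^ d) →
      d ≤ s.card * (s.card - 1) := by
  classical
  intro s
  induction s using Finset.strongInduction with
  | H s ih =>
  intro c hF
  -- monotonicity of the bound
  have mono : ∀ t : Finset ι, t ⊂ s → (∃ c' : ι → ℂ,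
      ∀ x, ∏ i, L i x = ∑ j ∈ t, c' j * (m j x) ^ d) → d ≤ s.card * (s.card - 1) := by
    rintro t ht ⟨c', hc'⟩
    refine (ih t ht c' hc').trans ?_
    have := Finset.card_lt_card ht
    exact Nat.mul_le_mul this.le (Nat.sub_le_sub_right this.le 1)
  -- the functionals `L i` are nonzero and pairwise independent
  have h3 : ∀ i : Fin d, ∃ j k : Fin d, i ≠ j ∧ i ≠ k ∧ j ≠ k := by
    intro i
    have : 3 ≤ (Finset.univ : Finset (Fin d)).card := by simpa using hd
    obtain ⟨u, hu1, hu2, hu3⟩ := Finset.exists_subsuperset_card_eq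
      (s := {i}) (t := Finset.univ) (n := 3) (by simp) (by simp) this
    have h4 : (u.erase i).card = 2 := by
      rw [Finset.card_erase_of_mem (hu1 (by simp)), hu3]
    obtain ⟨j, k, hjk, huv⟩ := Finset.card_eq_two.mp h4
    have hj : j ∈ u.erase i := by rw [huv]; simp
    have hk : k ∈ u.erase i := by rw [huv]; simp
    exact ⟨j, k, (Finset.ne_of_mem_erase hj).symm, (Finset.ne_of_mem_erase hk).symm, hjk⟩
  have hL0 : ∀ i, L i ≠ 0 := by
    intro i
    obtain ⟨j, k, hij, hik, hjk⟩ := h3 i
    exact (hL i j k hij hik hjk).ne_zero 0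
  obtain ⟨x0, hx0⟩ := Dual.exists_forall_ne_zero_of_forall_exists L (by
    intro i
    by_contra hcon
    push Not at hcon
    exact hL0 i (by ext x; rw [hcon x]; rfl))
  have hF0 : ∑ j ∈ s, c j * (m j x0) ^ d ≠ 0 := by
    rw [← hF x0]
    exact Finset.prod_ne_zero_iff.mpr (fun i _ => hx0 i)
  -- reduction: some coefficient vanishes
  by_cases hred1 : ∃ j ∈ s, ∀ x, c j * (m j x) ^ d = 0
  · obtain ⟨j, hj, hj0⟩ := hred1
    refine mono (s.erase j) (Finset.erase_ssubset hj) ⟨c, ?_⟩
    intro x
    rw [hF x, ← Finset.add_sum_erase s _ hj, hj0 x, zero_add]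
  push Not at hred1
  -- reduction: two forms are proportional
  by_cases hred2 : ∃ j ∈ s, ∃ k ∈ s, j ≠ k ∧ ∃ a : ℂ, m j = a • m k
  · obtain ⟨j, hj, k, hk, hjk, a, ha⟩ := hred2
    refine mono (s.erase j) (Finset.erase_ssubset hj)
      ⟨fun i => if i = k then c k + c j * a ^ d else c i, ?_⟩
    intro x
    have hk' : k ∈ s.erase j := Finset.mem_erase.mpr ⟨hjk.symm, hk⟩
    rw [hF x, ← Finset.add_sum_erase s _ hj, ← Finset.add_sum_erase _ _ hk',
      ← Finset.add_sum_erase (s.erase j) (fun i => (if i = k then c k + c j * a ^ d else c i) *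
        (m i x) ^ d) hk', ← add_assoc]
    congr 1
    · rw [if_pos rfl, ha, LinearMap.smul_apply, smul_eq_mul]
      ring
    · apply Finset.sum_congr rfl
      intro i hi
      rw [if_neg (Finset.ne_of_mem_erase hi)]
  push Not at hred2
  -- the case of few powers compared with the degree
  by_cases hcard : d + 1 < s.card
  · have h1 : 1 ≤ s.card - 1 := by omega
    nlinarith
  push Not at hcard
  have hprop : ∀ j ∈ s, ∀ k ∈ s, j ≠ k → ∀ a b : ℂ, a • m j = b • m k → a = 0 ∧ b = 0 := by
    intro j hj k hk hjk a b hab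
    by_cases ha : a = 0
    · refine ⟨ha, ?_⟩
      by_contra hb
      rw [ha, zero_smul] at hab
      have h0 : m k = (0 : ℂ) • m j := by
        have : m k = b⁻¹ • (b • m k) := by rw [smul_smul, inv_mul_cancel₀ hb, one_smul]
        rw [this, ← hab]; simp
      exact hred2 k hk j hj hjk.symm 0 h0
    · exfalso
      refine hred2 j hj k hk hjk (a⁻¹ * b) ?_
      rw [← smul_smul, ← hab, smul_smul, inv_mul_cancel₀ ha, one_smul]
  have hsne : ∃ j ∈ s, c j ≠ 0 := by
    by_contra hcon
    push Not at hcon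
    apply hF0
    apply Finset.sum_eq_zero
    intro j hj
    rw [hcon j hj, zero_mul]
  -- at least two forms
  have hm0 : ∀ j ∈ s, m j ≠ 0 := by
    intro j hj h0
    obtain ⟨x, hx⟩ := hred1 j hj
    apply hx
    rw [h0, LinearMap.zero_apply, zero_pow (by omega), mul_zero]
  have htwo : ∀ j ∈ s, ∃ k ∈ s, j ≠ k := by
    intro j hj
    by_contra hcon
    push Not at hcon
    have hs1 : s = {j} := by
      ext k
      rw [Finset.mem_singleton]
      exact ⟨fun hk => (hcon k hk).symm, fun hk => hk ▸ hj⟩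
    have hF1 : ∀ x, ∏ i, L i x = c j * (m j x) ^ d := by
      intro x
      rw [hF x, hs1, Finset.sum_singleton]
    have hcj : c j ≠ 0 := by
      obtain ⟨x, hx⟩ := hred1 j hj
      exact left_ne_zero_of_mul hx
    have hker : ∀ i, ∃ a : ℂ, m j = a • L i := by
      intro i
      apply exists_smul_of_ker_le
      intro x hx
      have h1 := hF1 x
      rw [Finset.prod_eq_zero (Finset.mem_univ i) hx] at h1
      have h2 := (mul_eq_zero.mp h1.symm).resolve_left hcj
      exact pow_eq_zero_iff (by omega) |>.mp h2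
    obtain ⟨i1, i2, h01, h02, h12⟩ := h3 ⟨0, by omega⟩
    obtain ⟨a, ha⟩ := hker ⟨0, by omega⟩
    obtain ⟨b, hb⟩ := hker i1
    have hind := hL ⟨0, by omega⟩ i1 i2 h01 h02 h12
    rw [Fintype.linearIndependent_iff] at hind
    have := hind ![a, -b, 0] (by
      rw [Fin.sum_univ_three]
      change a • L ⟨0, by omega⟩ + (-b) • L i1 + (0 : ℂ) • L i2 = 0
      rw [← ha, neg_smul, ← hb]
      simp)
    have ha0 : a = 0 := by simpa using this 0
    apply hm0 j hj
    rw [ha, ha0, zero_smul]
  -- every `L i` is in the span of two of the `m j`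
  have hspan : ∀ i, ∃ j ∈ s, ∃ k ∈ s, j ≠ k ∧ ∃ a b : ℂ, L i = a • m j + b • m k := by
    intro i
    by_cases hnot : ∀ j ∈ s, ∀ a : ℂ, m j ≠ a • L i
    · refine key_step s c m (L i) d hcard hsne hprop ?_ hnot
      intro x hx
      rw [← hF x]
      exact Finset.prod_eq_zero (Finset.mem_univ i) hx
    · push Not at hnot
      obtain ⟨j, hj, a, ha⟩ := hnot
      obtain ⟨k, hk, hjk⟩ := htwo j hj
      refine ⟨j, hj, k, hk, hjk, a⁻¹, 0, ?_⟩
      have ha0 : a ≠ 0 := by
        rintro rfl
        exact hm0 j hj (by rw [ha, zero_smul])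
      rw [ha, smul_smul, inv_mul_cancel₀ ha0, one_smul, zero_smul, add_zero]
  choose f hf g hg hfg a b hab using hspan
  -- pigeonhole
  by_contra hlt
  push Not at hlt
  have hmaps : ∀ i ∈ (Finset.univ : Finset (Fin d)),
      s(f i, g i) ∈ s.offDiag.image Sym2.mk.uncurry := by
    intro i _
    rw [Finset.mem_image]
    exact ⟨(f i, g i), Finset.mem_offDiag.mpr ⟨hf i, hg i, hfg i⟩, rfl⟩
  have hcnt : (s.offDiag.image Sym2.mk.uncurry).card * 2 < (Finset.univ : Finset (Fin d)).card := by
    rw [mul_comm, Sym2.two_mul_card_image_offDiag, Finset.offDiag_card, Finset.card_univ,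
      Fintype.card_fin]
    calc s.card * s.card - s.card = s.card * (s.card - 1) := by
          rw [Nat.mul_sub, mul_one]
      _ < d := hlt
  obtain ⟨z, hz, hcz⟩ := Finset.exists_lt_card_fiber_of_mul_lt_card_of_maps_to hmaps hcnt
  obtain ⟨i, hi, j, hj, k, hk, hij, hik, hjk⟩ := Finset.two_lt_card.mp hcz
  simp only [Finset.mem_filter, Finset.mem_univ, true_and] at hi hj hk
  -- all three lie in the span of `m (f i)`, `m (g i)`
  have hmem : ∀ l, s(f l, g l) = z → ∃ p q : ℂ, L l = p • m (f i) + q • m (g i) := by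
    intro l hl
    rw [← hi, Sym2.eq_iff] at hl
    rcases hl with ⟨h1, h2⟩ | ⟨h1, h2⟩
    · exact ⟨a l, b l, by rw [← h1, ← h2]; exact hab l⟩
    · exact ⟨b l, a l, by rw [← h1, ← h2, add_comm]; exact hab l⟩
  obtain ⟨p1, q1, e1⟩ := hmem i hi
  obtain ⟨p2, q2, e2⟩ := hmem j hj
  obtain ⟨p3, q3, e3⟩ := hmem k hk
  have hind := hL i j k hij hik hjk
  rw [Fintype.linearIndependent_iff] at hind
  have hz1 := hind ![p2 * q3 - p3 * q2, p3 * q1 - p1 * q3, p1 * q2 - p2 * q1] (by
    rw [Fin.sum_univ_three]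
    change (p2 * q3 - p3 * q2) • L i + (p3 * q1 - p1 * q3) • L j + (p1 * q2 - p2 * q1) • L k = 0
    rw [e1, e2, e3]
    module)
  have z0 : p2 * q3 - p3 * q2 = 0 := by simpa using hz1 0
  have z1 : p3 * q1 - p1 * q3 = 0 := by simpa using hz1 1
  have z2 : p1 * q2 - p2 * q1 = 0 := by simpa using hz1 2
  have hi0 := hL0 i
  -- then `L i` and `L j` are proportional
  have hz3 := hind ![p2, -p1, 0] (by
    rw [Fin.sum_univ_three]
    change p2 • L i + (-p1) • L j + (0 : ℂ) • L k = 0
    rw [e1, e2]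
    have : p2 • (p1 • m (f i) + q1 • m (g i)) + -p1 • (p2 • m (f i) + q2 • m (g i)) +
        (0 : ℂ) • L k = (-(p1 * q2 - p2 * q1)) • m (g i) := by module
    rw [this, z2]; simp)
  have hz4 := hind ![q2, -q1, 0] (by
    rw [Fin.sum_univ_three]
    change q2 • L i + (-q1) • L j + (0 : ℂ) • L k = 0
    rw [e1, e2]
    have : q2 • (p1 • m (f i) + q1 • m (g i)) + -q1 • (p2 • m (f i) + q2 • m (g i)) +
        (0 : ℂ) • L k = ((p1 * q2 - p2 * q1)) • m (f i) := by module
    rw [this, z2]; simp)
  have hp1 : p1 = 0 := by simpa using hz3 1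
  have hq1 : q1 = 0 := by simpa using hz4 1
  apply hi0
  rw [e1, hp1, hq1]; simp

end core

/-- A linear form is the combination of the variables given by its coefficients. -/
lemma linear_form_eq {n : ℕ} (m : MvPolynomial (Fin n) ℂ) (hm : m.IsHomogeneous 1) :
    m = ∑ i : Fin n, C (coeff (Finsupp.single i 1) m) * X i := by
  have h : m ∈ homogeneousSubmodule (Fin n) ℂ 1 := hm
  rw [homogeneousSubmodule_one_eq_span_X] at h
  induction h using Submodule.span_induction with
  | mem x hx =>
    obtain ⟨j, rfl⟩ := hx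
    rw [Finset.sum_eq_single j]
    · simp
    · intro b _ hb
      rw [coeff_X, if_neg, C_0, zero_mul]
      intro h
      exact hb (Finsupp.single_left_injective one_ne_zero h).symm
    · intro h
      exact absurd (Finset.mem_univ j) h
  | zero => simp
  | add p q hp hq ihp ihq =>
    have h1 := ihp (by
      rw [← mem_homogeneousSubmodule, homogeneousSubmodule_one_eq_span_X]; exact hp)
    have h2 := ihq (by
      rw [← mem_homogeneousSubmodule, homogeneousSubmodule_one_eq_span_X]; exact hq)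
    simp only [coeff_add, C_add, add_mul, Finset.sum_add_distrib]
    rw [← h1, ← h2]
  | smul r p hp ih =>
    have h1 := ih (by
      rw [← mem_homogeneousSubmodule, homogeneousSubmodule_one_eq_span_X]; exact hp)
    simp only [coeff_smul, smul_eq_mul, C_mul, mul_assoc]
    rw [← Finset.mul_sum, ← h1, smul_eq_C_mul]

/-- The linear functional defined by the coefficients of a linear form. -/
noncomputable def func (n : ℕ) : MvPolynomial (Fin n) ℂ →ₗ[ℂ] Module.Dual ℂ (Fin n → ℂ) where
  toFun m := ∑ i : Fin n, (coeff (Finsupp.single i 1) m) • (LinearMap.proj i)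
  map_add' p q := by
    simp only [coeff_add, add_smul, Finset.sum_add_distrib]
  map_smul' r p := by
    simp only [coeff_smul, smul_eq_mul, mul_smul, RingHom.id_apply, Finset.smul_sum]

lemma func_apply {n : ℕ} (m : MvPolynomial (Fin n) ℂ) (x : Fin n → ℂ) :
    func n m x = ∑ i : Fin n, coeff (Finsupp.single i 1) m * x i := by
  simp [func]

lemma func_eval {n : ℕ} (m : MvPolynomial (Fin n) ℂ) (hm : m.IsHomogeneous 1) (x : Fin n → ℂ) :
    func n m x = eval x m := by
  rw [func_apply]
  conv_rhs => rw [linear_form_eq m hm]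
  simp

lemma func_injective {n : ℕ} (m : MvPolynomial (Fin n) ℂ) (hm : m.IsHomogeneous 1)
    (h : func n m = 0) : m = 0 := by
  rw [linear_form_eq m hm]
  apply Finset.sum_eq_zero
  intro i _
  have h1 := congrArg (fun φ => φ (Pi.single i 1)) h
  simp only [func_apply, LinearMap.zero_apply] at h1
  rw [Finset.sum_eq_single i] at h1
  · rw [Pi.single_eq_same, mul_one] at h1
    rw [h1, C_0, zero_mul]
  · intro j _ hj
    rw [Pi.single_eq_of_ne hj, mul_zero]
  · intro h
    exact absurd (Finset.mem_univ i) h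

/-- The bound for generic arrangements. -/
theorem arrangement_bound (n d w : ℕ) (hn : 2 ≤ n) (ℓ : Fin d → MvPolynomial (Fin (n + 1)) ℂ)
    (hℓ : IsGenericArrangement n d ℓ) (m : Fin w → MvPolynomial (Fin (n + 1)) ℂ)
    (hm : ∀ j, (m j).IsHomogeneous 1) (hF : ∏ i, ℓ i = ∑ j, m j ^ d) : d ≤ w * (w - 1) := by
  classical
  obtain ⟨hd, hhom, hind⟩ := hℓ
  have key := core_bound d (by omega) (fun i => func (n + 1) (ℓ i)) (by
    intro i j k hij hik hjk
    -- enlarge `{i, j, k}` to a set of `n + 1` indices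
    obtain ⟨u, hu1, -, hu3⟩ := Finset.exists_subsuperset_card_eq
      (s := {i, j, k}) (t := Finset.univ) (n := n + 1) (by simp) (by
        rw [Finset.card_eq_three.mpr ⟨i, j, k, hij, hik, hjk, rfl⟩]; omega) (by simpa using hd)
    have hlin := hind u hu3
    have hi : i ∈ u := hu1 (by simp)
    have hj : j ∈ u := hu1 (by simp)
    have hk : k ∈ u := hu1 (by simp)
    have h3 : LinearIndependent ℂ ![ℓ i, ℓ j, ℓ k] := by
      have hinj : Function.Injective ![(⟨i, hi⟩ : u), ⟨j, hj⟩, ⟨k, hk⟩] := by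
        intro a b hab
        fin_cases a <;> fin_cases b <;> simp_all
      have := hlin.comp _ hinj
      convert this using 1
      ext a : 1
      fin_cases a <;> rfl
    rw [Fintype.linearIndependent_iff] at h3 ⊢
    intro g hg
    apply h3 g
    rw [Fin.sum_univ_three] at hg ⊢
    change g 0 • func (n + 1) (ℓ i) + g 1 • func (n + 1) (ℓ j) + g 2 • func (n + 1) (ℓ k) = 0 at hg
    change g 0 • ℓ i + g 1 • ℓ j + g 2 • ℓ k = 0
    apply func_injective
    · rw [← mem_homogeneousSubmodule]
      refine Submodule.add_mem _ (Submodule.add_mem _ ?_ ?_) ?_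
      · exact Submodule.smul_mem _ _ (hhom i)
      · exact Submodule.smul_mem _ _ (hhom j)
      · exact Submodule.smul_mem _ _ (hhom k)
    · rw [map_add, map_add, map_smul, map_smul, map_smul]
      exact hg)
    (fun j : Fin w => func (n + 1) (m j)) Finset.univ (fun _ => 1) (by
      intro x
      have h1 := congrArg (eval x) hF
      rw [map_prod, map_sum] at h1
      simp only [map_pow] at h1
      simp only [one_mul]
      calc ∏ i, func (n + 1) (ℓ i) x = ∏ i, eval x (ℓ i) :=
            Finset.prod_congr rfl (fun i _ => func_eval _ (hhom i) x)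
        _ = ∑ j, (eval x (m j)) ^ d := h1
        _ = _ := Finset.sum_congr rfl (fun j _ => by rw [func_eval _ (hm j) x]))
  simpa using key

/-- **Main result.**  `P(n)` fails for every `n ≥ 2`.  More precisely, if a generic arrangement of
`d ≥ n + 1` hyperplanes in `ℙⁿ`, `n ≥ 2`, is a sum of `w` `d`-th powers of linear forms, then
`d ≤ w (w - 1)`; so for every `r` there are only finitely many `d` such that some generic
arrangement of `d` hyperplanes in `ℙⁿ` has Waring rank `r`. -/
theorem result :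
    (∀ n : ℕ, 2 ≤ n → ¬ P n) ∧
    (∀ n : ℕ, 2 ≤ n → ∀ d w : ℕ, ∀ ℓ : Fin d → MvPolynomial (Fin (n + 1)) ℂ,
      IsGenericArrangement n d ℓ → ∀ m : Fin w → MvPolynomial (Fin (n + 1)) ℂ,
        (∀ j, (m j).IsHomogeneous 1) → ∏ i, ℓ i = ∑ j, m j ^ d → d ≤ w * (w - 1)) := by
  refine ⟨?_, fun n hn d w ℓ hℓ m hm hF => arrangement_bound n d w hn ℓ hℓ m hm hF⟩
  intro n hn hP
  obtain ⟨d, hd, ℓ, hℓ, hr⟩ := hP ((2 * n).choose n * ((2 * n).choose n - 1) + 1)
  have hpos : 0 < (2 * n).choose n := Nat.choose_pos (by omega)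
  have hne : {w : ℕ | ∃ L : Fin w → MvPolynomial (Fin (n + 1)) ℂ,
      (∀ i, (L i).IsHomogeneous 1) ∧ ∏ i, ℓ i = ∑ i, L i ^ d}.Nonempty := by
    by_contra hemp
    rw [Set.not_nonempty_iff_eq_empty] at hemp
    rw [waringRank, hemp, Nat.sInf_empty] at hr
    omega
  have hmem := Nat.sInf_mem hne
  change waringRank d (∏ i, ℓ i) ∈ _ at hmem
  rw [hr] at hmem
  obtain ⟨m, hm, hF⟩ := hmem
  have := arrangement_bound n d _ hn ℓ hℓ m hm hF
  omega

end Pool.Agent.Results.MP_02c618_ag.NoLargeArrangements
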